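import Pool.Agent.W663.SX.Stm

set_option autoImplicit false
open scoped Matrix.Norms.L2Operator Matrix ComplexOrder

noncomputable section

namespace Pool.Agent.W168.SX

theorem t : Pool.Agent.W663.SX.S_CS := by
  intro A _ n X Y
  letI : PartialOrder A := CStarAlgebra.spectralOrder A
  haveI : StarOrderedRing A := CStarAlgebra.spectralOrderedRing A
  let x : WithCStarModule A (Fin n → A) := WithCStarModule.equiv A (Fin n → A) |>.symm
    (fun i => star (Y i))
  let y : WithCStarModule A (Fin n → A) := WithCStarModule.equiv A (Fin n → A) |>.symm X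
  have h := CStarModule.norm_inner_le (A := A) (E := WithCStarModule A (Fin n → A)) (x := x) (y := y)
  have hx : ‖x‖ ^ 2 = ‖∑ i, star (Y i) * Y i‖ := by
    rw [WithCStarModule.pi_norm_sq]
    congr 1
    refine Finset.sum_congr rfl fun i _ => ?_
    rw [WithCStarModule.inner_def]
    simp [x]
  have hy : ‖y‖ ^ 2 = ‖∑ i, X i * star (X i)‖ := by
    rw [WithCStarModule.pi_norm_sq]
    congr 1
  have hxy : inner A x y = ∑ i, X i * Y i := by
    rw [WithCStarModule.pi_inner]
    refine Finset.sum_congr rfl fun i _ => ?_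
    rw [WithCStarModule.inner_def]
    simp [x, y]
  rw [hxy] at h
  calc ‖∑ i, X i * Y i‖ ^ 2 ≤ (‖x‖ * ‖y‖) ^ 2 := by gcongr
    _ = ‖y‖ ^ 2 * ‖x‖ ^ 2 := by ring
    _ = _ := by rw [hx, hy]

end Pool.Agent.W168.SX
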